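import Pool.Agent.W120.WM.Defs

/-! Subtask WM-UNS. -/

set_option autoImplicit false

open MeasureTheory Filter Topology Set

namespace Pool.Agent.W883.WM

open Pool.Agent.W120.WM

theorem mx_aux {a b : ℝ} (ha : 0 ≤ a) (hab : a ≤ b) : |Mx b - Mx a| ≤ (b - a) + 1 := by
  unfold Mx
  have hfl : ⌊a⌋₊ ≤ ⌊b⌋₊ := Nat.floor_mono hab
  have h1 : Finset.Icc 1 ⌊b⌋₊ = Finset.Icc 1 ⌊a⌋₊ ∪ Finset.Ioc ⌊a⌋₊ ⌊b⌋₊ := by
    ext n
    simp only [Finset.mem_Icc, Finset.mem_union, Finset.mem_Ioc]
    omega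
  have h2 : Disjoint (Finset.Icc 1 ⌊a⌋₊) (Finset.Ioc ⌊a⌋₊ ⌊b⌋₊) := by
    rw [Finset.disjoint_left]
    intro n hn hn2
    simp only [Finset.mem_Icc, Finset.mem_Ioc] at hn hn2
    omega
  rw [h1, Finset.sum_union h2, add_sub_cancel_left]
  calc |∑ n ∈ Finset.Ioc ⌊a⌋₊ ⌊b⌋₊, ((ArithmeticFunction.moebius n : ℤ) : ℝ)|
      ≤ ∑ n ∈ Finset.Ioc ⌊a⌋₊ ⌊b⌋₊, |((ArithmeticFunction.moebius n : ℤ) : ℝ)| :=
        Finset.abs_sum_le_sum_abs _ _
    _ ≤ ∑ n ∈ Finset.Ioc ⌊a⌋₊ ⌊b⌋₊, (1 : ℝ) := by
        refine Finset.sum_le_sum fun n _ => ?_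
        exact_mod_cast ArithmeticFunction.abs_moebius_le_one
    _ = (⌊b⌋₊ : ℝ) - ⌊a⌋₊ := by
        rw [Finset.sum_const, Nat.card_Ioc, nsmul_eq_mul, mul_one, Nat.cast_sub hfl]
    _ ≤ (b - a) + 1 := by
        have h3 := Nat.floor_le (ha.trans hab)
        have h4 := Nat.lt_floor_add_one a
        linarith

theorem mx_diff {a b : ℝ} (ha : 0 ≤ a) (hb : 0 ≤ b) : |Mx a - Mx b| ≤ |a - b| + 1 := by
  rcases le_total a b with h | h
  · rw [abs_sub_comm, abs_sub_comm a b, abs_of_nonneg (sub_nonneg.2 h)]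
    exact mx_aux ha h
  · rw [abs_of_nonneg (sub_nonneg.2 h)]
    exact mx_aux hb h

theorem mx_meas : Measurable Mx := by
  have : Mx = (fun n : ℕ => ∑ n ∈ Finset.Icc 1 n, ((ArithmeticFunction.moebius n : ℤ) : ℝ)) ∘
      (fun u : ℝ => ⌊u⌋₊) := by
    funext u
    rfl
  rw [this]
  exact (measurable_from_nat).comp Nat.measurable_floor

/-- the standard Gaussian density -/
noncomputable def ph (x : ℝ) : ℝ := (Real.sqrt (2 * Real.pi))⁻¹ * Real.exp (-(1 / 2) * x ^ 2)

theorem ph_nonneg (x : ℝ) : 0 ≤ ph x := by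
  unfold ph
  positivity

theorem ph_meas : Measurable ph := by
  unfold ph
  fun_prop

theorem ph_int : Integrable ph :=
  (integrable_exp_neg_mul_sq (by norm_num : (0 : ℝ) < 1 / 2)).const_mul _

theorem ph_one : ∫ x, ph x = 1 := by
  unfold ph
  rw [integral_const_mul, integral_gaussian]
  rw [show Real.pi / (1 / 2) = 2 * Real.pi by ring]
  exact inv_mul_cancel₀ (by positivity)

theorem dom_int : Integrable (fun x : ℝ => (|x| * Real.exp |x| + 1) * ph x) := by
  have h0 : Integrable (fun x : ℝ => (2 * Real.exp 4 * (Real.sqrt (2 * Real.pi))⁻¹) *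
      Real.exp (-(1 / 4) * x ^ 2)) :=
    (integrable_exp_neg_mul_sq (by norm_num : (0 : ℝ) < 1 / 4)).const_mul _
  refine h0.mono' ?_ ?_
  · exact ((by fun_prop : Measurable fun x : ℝ => |x| * Real.exp |x| + 1).mul
      ph_meas).aestronglyMeasurable
  · refine Filter.Eventually.of_forall fun x => ?_
    rw [Real.norm_of_nonneg (mul_nonneg (by positivity) (ph_nonneg x))]
    have h1 : |x| ≤ Real.exp |x| := (Real.add_one_le_exp _).trans' (by linarith)
    have h2 : (1 : ℝ) ≤ Real.exp (2 * |x|) := Real.one_le_exp (by positivity)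
    have h3 : |x| * Real.exp |x| + 1 ≤ 2 * Real.exp (2 * |x|) := by
      have : |x| * Real.exp |x| ≤ Real.exp (2 * |x|) := by
        rw [two_mul, Real.exp_add]
        exact mul_le_mul_of_nonneg_right h1 (Real.exp_pos _).le
      linarith
    have h4 : Real.exp (2 * |x|) * Real.exp (-(1 / 2) * x ^ 2) ≤
        Real.exp 4 * Real.exp (-(1 / 4) * x ^ 2) := by
      rw [← Real.exp_add, ← Real.exp_add]
      apply Real.exp_le_exp.2
      nlinarith [sq_nonneg (|x| - 4), sq_abs x]
    unfold ph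
    have h5 : 0 ≤ (Real.sqrt (2 * Real.pi))⁻¹ := by positivity
    calc (|x| * Real.exp |x| + 1) * ((Real.sqrt (2 * Real.pi))⁻¹ * Real.exp (-(1 / 2) * x ^ 2))
        ≤ (2 * Real.exp (2 * |x|)) *
          ((Real.sqrt (2 * Real.pi))⁻¹ * Real.exp (-(1 / 2) * x ^ 2)) :=
          mul_le_mul_of_nonneg_right h3 (by positivity)
      _ = 2 * (Real.sqrt (2 * Real.pi))⁻¹ *
          (Real.exp (2 * |x|) * Real.exp (-(1 / 2) * x ^ 2)) := by ring
      _ ≤ 2 * (Real.sqrt (2 * Real.pi))⁻¹ * (Real.exp 4 * Real.exp (-(1 / 4) * x ^ 2)) :=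
          mul_le_mul_of_nonneg_left h4 (by positivity)
      _ = _ := by ring

theorem sm_eq (h v : ℝ) (hh : 0 < h) : Sm h v = ∫ x : ℝ, Mx (Real.exp (v - h * x)) * ph x := by
  unfold Sm
  have h1 := Measure.integral_comp_mul_left (fun w => Mx (Real.exp (v - w)) * gk h w) h
  rw [abs_of_pos (inv_pos.2 hh), smul_eq_mul] at h1
  have h2 : (fun x : ℝ => Mx (Real.exp (v - h * x)) * ph x) =
      fun x : ℝ => h * (Mx (Real.exp (v - h * x)) * gk h (h * x)) := by
    funext x
    unfold gk ph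
    have : -((h * x) ^ 2 / (2 * h ^ 2)) = -(1 / 2) * x ^ 2 := by
      field_simp
    rw [this, mul_inv]
    field_simp
  rw [h2, integral_const_mul, h1]
  rw [← mul_assoc, mul_inv_cancel₀ hh.ne', one_mul]

theorem uns : T_UNS := by
  refine ⟨(∫ x : ℝ, (|x| * Real.exp |x| + 1) * ph x) + 1, ?_, ?_⟩
  · have : 0 ≤ ∫ x : ℝ, (|x| * Real.exp |x| + 1) * ph x :=
      integral_nonneg fun x => mul_nonneg (by positivity) (ph_nonneg x)
    linarith
  intro v h hv hh hhv
  have hh1 : h ≤ 1 := hhv.trans (Real.exp_le_one_iff.2 (by linarith))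
  have hhe : Real.exp v * h ≤ 1 := by
    calc Real.exp v * h ≤ Real.exp v * Real.exp (-v) :=
          mul_le_mul_of_nonneg_left hhv (Real.exp_pos _).le
      _ = 1 := by rw [← Real.exp_add, add_neg_cancel, Real.exp_zero]
  have hb : ∀ x : ℝ, |Mx (Real.exp v) - Mx (Real.exp (v - h * x))| ≤
      |x| * Real.exp |x| + 1 := by
    intro x
    refine (mx_diff (Real.exp_pos _).le (Real.exp_pos _).le).trans ?_
    have h1 : Real.exp v - Real.exp (v - h * x) = Real.exp v * (1 - Real.exp (-(h * x))) := by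
      rw [mul_sub, mul_one, ← Real.exp_add]
      ring_nf
    rw [h1, abs_mul, abs_of_pos (Real.exp_pos v)]
    have h2 : |1 - Real.exp (-(h * x))| ≤ (h * |x|) * Real.exp |x| := by
      have hx1 : h * |x| ≤ |x| := by
        have := abs_nonneg x
        nlinarith
      have h3 : |h * x| = h * |x| := by rw [abs_mul, abs_of_pos hh]
      rcases le_total 0 (h * x) with hx | hx
      · rw [abs_of_nonneg (by
          have := Real.exp_le_one_iff.2 (neg_nonpos.2 hx)
          linarith)]
        have h4 := Real.add_one_le_exp (-(h * x))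
        have h5 : h * x = h * |x| := by rw [← h3, abs_of_nonneg hx]
        have h6 : (1 : ℝ) ≤ Real.exp |x| := Real.one_le_exp (abs_nonneg x)
        have h7 : 0 ≤ h * |x| := by positivity
        nlinarith
      · rw [abs_of_nonpos (by
          have := Real.one_le_exp (neg_nonneg.2 hx)
          linarith)]
        have h5 : -(h * x) = h * |x| := by rw [← h3, abs_of_nonpos hx]
        rw [h5]
        have h4 := Real.add_one_le_exp (-(h * |x|))
        have h6 : Real.exp (h * |x|) ≤ Real.exp |x| := Real.exp_le_exp.2 hx1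
        have h7 : 0 ≤ h * |x| := by positivity
        have h8 : Real.exp (h * |x|) * Real.exp (-(h * |x|)) = 1 := by
          rw [← Real.exp_add, add_neg_cancel, Real.exp_zero]
        have h9 := Real.exp_pos (h * |x|)
        have h10 : Real.exp (h * |x|) - 1 ≤ Real.exp (h * |x|) * (h * |x|) := by
          nlinarith
        have h11 : Real.exp (h * |x|) * (h * |x|) ≤ Real.exp |x| * (h * |x|) :=
          mul_le_mul_of_nonneg_right h6 h7
        linarith
    have h12 : Real.exp v * |1 - Real.exp (-(h * x))| ≤ |x| * Real.exp |x| := by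
      calc Real.exp v * |1 - Real.exp (-(h * x))|
          ≤ Real.exp v * ((h * |x|) * Real.exp |x|) :=
            mul_le_mul_of_nonneg_left h2 (Real.exp_pos _).le
        _ = (Real.exp v * h) * (|x| * Real.exp |x|) := by ring
        _ ≤ 1 * (|x| * Real.exp |x|) := mul_le_mul_of_nonneg_right hhe (by positivity)
        _ = _ := one_mul _
    linarith
  have hDb : ∀ x : ℝ, ‖(Mx (Real.exp v) - Mx (Real.exp (v - h * x))) * ph x‖ ≤
      (|x| * Real.exp |x| + 1) * ph x := by
    intro x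
    rw [norm_mul, Real.norm_of_nonneg (ph_nonneg x)]
    exact mul_le_mul_of_nonneg_right (hb x) (ph_nonneg x)
  have hDi : Integrable (fun x : ℝ => (Mx (Real.exp v) - Mx (Real.exp (v - h * x))) * ph x) := by
    refine dom_int.mono' ?_ (Filter.Eventually.of_forall hDb)
    refine Measurable.aestronglyMeasurable ?_
    refine Measurable.mul ?_ ph_meas
    exact measurable_const.sub (mx_meas.comp (by fun_prop))
  have hS : Sm h v = Mx (Real.exp v) -
      ∫ x : ℝ, (Mx (Real.exp v) - Mx (Real.exp (v - h * x))) * ph x := by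
    rw [sm_eq h v hh]
    have : (fun x : ℝ => Mx (Real.exp (v - h * x)) * ph x) =
        fun x : ℝ => Mx (Real.exp v) * ph x -
          (Mx (Real.exp v) - Mx (Real.exp (v - h * x))) * ph x := by
      funext x
      ring
    rw [this, integral_sub (ph_int.const_mul _) hDi, integral_const_mul, ph_one, mul_one]
  rw [hS, sub_sub_cancel]
  have h1 := norm_integral_le_of_norm_le dom_int (Filter.Eventually.of_forall hDb)
  rw [Real.norm_eq_abs] at h1
  linarith

end Pool.Agent.W883.WM
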